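import Pool.Agent.H927.MG.SGoals

/-!
# Descent of a field-valued point of a scheme to a subfield (for MP_2eb777_ag, statement `S_arc1`)
-/

set_option autoImplicit false

open AlgebraicGeometry CategoryTheory Limits Polynomial TensorProduct

namespace Pool.Agent.H155.MG927

open Pool.Agent.H927.MG

/-- two homomorphisms from a subalgebra with different values at `b` give two homomorphisms of `K`
to an algebraically closed field with different values at `b` -/
theorem two_homs {F K B L : Type} [Field F] [Field K] [Algebra F K] [CommRing B] [Algebra F B]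
    [CommRing L] [IsDomain L] [Algebra F L] (j : B →ₐ[F] K) (hj : Function.Injective j)
    (u u' : B →ₐ[F] L) (b : B) (hb : u b ≠ u' b) :
    ∃ (Ω : Type) (_ : Field Ω) (_ : IsAlgClosed Ω) (a a' : K →+* Ω),
      a.comp (algebraMap F K) = a'.comp (algebraMap F K) ∧ a (j b) ≠ a' (j b) := by
  set d : K ⊗[F] K := (j b) ⊗ₜ 1 - 1 ⊗ₜ (j b) with hd
  have hnil : ¬ IsNilpotent d := by
    rintro ⟨n, hn⟩
    have hinj : Function.Injective (Algebra.TensorProduct.map j j) :=
      TensorProduct.map_injective_of_flat_flat j.toLinearMap j.toLinearMap hj hj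
    have h1 : (b ⊗ₜ[F] (1 : B) - (1 : B) ⊗ₜ[F] b) ^ n = 0 := by
      apply hinj
      rw [map_pow, map_sub, Algebra.TensorProduct.map_tmul, Algebra.TensorProduct.map_tmul,
        map_one, map_zero]
      exact hn
    have h2 := congrArg (Algebra.TensorProduct.productMap u u') h1
    rw [map_pow, map_sub, Algebra.TensorProduct.productMap_apply_tmul,
      Algebra.TensorProduct.productMap_apply_tmul, map_one, map_one, mul_one, one_mul,
      map_zero] at h2
    exact hb (sub_eq_zero.1 (eq_zero_of_pow_eq_zero h2))
  rw [nilpotent_iff_mem_prime] at hnil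
  push Not at hnil
  obtain ⟨P, hP, hdP⟩ := hnil
  have : P.IsPrime := hP
  set q : K ⊗[F] K →+* AlgebraicClosure (FractionRing ((K ⊗[F] K) ⧸ P)) :=
    (algebraMap (FractionRing ((K ⊗[F] K) ⧸ P)) (AlgebraicClosure (FractionRing ((K ⊗[F] K) ⧸ P)))).comp
      ((algebraMap ((K ⊗[F] K) ⧸ P) (FractionRing ((K ⊗[F] K) ⧸ P))).comp (Ideal.Quotient.mk P))
    with hq
  have hqd : q d ≠ 0 := by
    intro h0
    apply hdP
    rw [← Ideal.Quotient.eq_zero_iff_mem]
    apply IsFractionRing.injective ((K ⊗[F] K) ⧸ P) (FractionRing ((K ⊗[F] K) ⧸ P))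
    apply (algebraMap (FractionRing ((K ⊗[F] K) ⧸ P))
      (AlgebraicClosure (FractionRing ((K ⊗[F] K) ⧸ P)))).injective
    rw [map_zero, map_zero]
    exact h0
  refine ⟨AlgebraicClosure (FractionRing ((K ⊗[F] K) ⧸ P)), inferInstance, inferInstance,
    q.comp (Algebra.TensorProduct.includeLeft : K →ₐ[F] K ⊗[F] K).toRingHom,
    q.comp (Algebra.TensorProduct.includeRight : K →ₐ[F] K ⊗[F] K).toRingHom, ?_, ?_⟩
  · ext f
    show q ((algebraMap F K f) ⊗ₜ 1) = q (1 ⊗ₜ (algebraMap F K f))
    congr 1
    rw [Algebra.algebraMap_eq_smul_one, TensorProduct.smul_tmul]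
  · intro h
    apply hqd
    rw [hd, map_sub]
    exact sub_eq_zero.2 h

/-- Galois-type criterion for an element of `K` to be in the subfield `F` -/
theorem mem_range {F K : Type} [Field F] [Field K] [CharZero F] [Algebra F K] (x : K)
    (hx : ∀ (Ω : Type) [Field Ω] [IsAlgClosed Ω] (a a' : K →+* Ω),
      a.comp (algebraMap F K) = a'.comp (algebraMap F K) → a x = a' x) :
    x ∈ (algebraMap F K).range := by
  by_contra hn
  by_cases ht : Transcendental F x
  · obtain ⟨Ω, i1, i2, a, a', h1, h2⟩ := two_homs (aeval x : F[X] →ₐ[F] K)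
      (transcendental_iff_injective.1 ht) (AlgHom.id F F[X]) (aeval (X + 1 : F[X])) X (by
        rw [aeval_X, AlgHom.id_apply]
        intro h
        have h3 : (1 : F[X]) = 0 := by linear_combination -h
        exact one_ne_zero h3)
    rw [aeval_X] at h2
    exact h2 (hx Ω a a' h1)
  · have hint : IsIntegral F x := by
      rw [Transcendental, not_not] at ht
      exact ht.isIntegral
    have halg : Algebra.IsAlgebraic F (IntermediateField.adjoin F {x}) :=
      IntermediateField.isAlgebraic_adjoin_simple hint
    set x' : IntermediateField.adjoin F {x} := ⟨x, IntermediateField.mem_adjoin_simple_self F x⟩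
      with hx'
    set i : IntermediateField.adjoin F {x} →ₐ[F] AlgebraicClosure F := IsAlgClosed.lift with hi
    have hix : ¬ ∀ f : Gal(AlgebraicClosure F/F), f (i x') = i x' := by
      rw [← InfiniteGalois.mem_range_algebraMap_iff_fixed]
      rintro ⟨f, hf⟩
      apply hn
      refine ⟨f, ?_⟩
      rw [← i.commutes f] at hf
      have h3 := congrArg Subtype.val (i.toRingHom.injective hf)
      exact h3
    push Not at hix
    obtain ⟨σ, hσ⟩ := hix
    obtain ⟨Ω, i1, i2, a, a', h1, h2⟩ := two_homs (IntermediateField.adjoin F {x}).val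
      Subtype.val_injective (σ.toAlgHom.comp i) i x' hσ
    exact h2 (hx Ω a a' h1)

theorem arc1 : S_arc1 := by
  intro M F K _ _ _ _ ρ h
  obtain ⟨⟨y, r⟩, rfl⟩ := (Scheme.SpecToEquivOfField K M).symm.surjective ρ
  have hr : ∀ t, r.hom t ∈ (algebraMap F K).range := by
    intro t
    refine mem_range _ fun Ω _ _ a a' haa' => ?_
    have h1 := h Ω a a' haa'
    simp only [Scheme.SpecToEquivOfField_symm_apply] at h1
    rw [← Category.assoc, ← Category.assoc, cancel_mono, ← Spec.map_comp, ← Spec.map_comp,
      Spec.map_inj] at h1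
    exact congrArg (fun z => z.hom t) h1
  set e := RingEquiv.ofBijective (algebraMap F K).rangeRestrict
    ⟨fun _ _ hab => (algebraMap F K).injective (congrArg Subtype.val hab),
      (algebraMap F K).rangeRestrict_surjective⟩ with he
  set r' : M.residueField y →+* F :=
    e.symm.toRingHom.comp (r.hom.codRestrict (algebraMap F K).range hr) with hr'
  have hcomp : (algebraMap F K).comp r' = r.hom := by
    ext t
    have h2 := e.apply_symm_apply ⟨r.hom t, hr t⟩
    exact congrArg Subtype.val h2
  refine ⟨Spec.map (CommRingCat.ofHom r') ≫ M.fromSpecResidueField y, ?_⟩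
  rw [← Category.assoc, ← Spec.map_comp, ← CommRingCat.ofHom_comp, hcomp]
  rfl

end Pool.Agent.H155.MG927
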